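import Pool.Agent.Helper12_AEU.StmtF

/-! helper96, AEU (MP_5b0138_an) Part III, block F, piece SHB: ratio of hyperbolic sines. -/

namespace Pool.Agent.AEU.H96F

open Real

lemma sinh_exp_le (a q t : ℝ) (haq : a ≤ q) (ht : 0 ≤ t) :
    Real.sinh (a * t) ≤ Real.exp (-((q - a) * t)) * Real.sinh (q * t) := by
  rw [Real.sinh_eq, Real.sinh_eq]
  have h1 : Real.exp (-((q - a) * t)) * ((Real.exp (q * t) - Real.exp (-(q * t))) / 2)
      = (Real.exp (a * t) - Real.exp (-((2 * q - a) * t))) / 2 := by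
    rw [mul_div_assoc', mul_sub, ← Real.exp_add, ← Real.exp_add]
    congr 2
    · congr 1; ring
    · congr 1; ring
  rw [h1]
  have h2 : Real.exp (-((2 * q - a) * t)) ≤ Real.exp (-(a * t)) := by
    apply Real.exp_le_exp.mpr
    nlinarith
  linarith

lemma abs_sinh' (x : ℝ) : |Real.sinh x| = Real.sinh |x| := by
  exact Real.abs_sinh x

theorem shb : Pool.Agent.AEU.H12F.ShbStatement := by
  intro p q hpq
  have hq : 0 < q := lt_of_le_of_lt (abs_nonneg p) hpq
  refine ⟨?_, 1, zero_le_one, ?_⟩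
  · exact ((Real.continuous_sinh.comp (continuous_const.mul continuous_id)).measurable).div
      ((Real.continuous_sinh.comp (continuous_const.mul continuous_id)).measurable)
  · intro τ
    rcases eq_or_ne τ 0 with rfl | hτ
    · simp
    · have hτ' : 0 < |τ| := abs_pos.mpr hτ
      rw [abs_div, abs_sinh', abs_sinh', abs_mul, abs_mul, abs_of_pos hq, one_mul]
      have h3 : 0 < Real.sinh (q * |τ|) := Real.sinh_pos_iff.mpr (mul_pos hq hτ')
      rw [div_le_iff₀ h3]
      exact sinh_exp_le |p| q |τ| hpq.le (abs_nonneg τ)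

end Pool.Agent.AEU.H96F
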